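import Mathlib

set_option autoImplicit false

open Filter Topology

namespace Pool.Agent.Q164.IX

/-- entire functions which are not identically zero have finite orders -/
theorem order_ne_top {f : ℂ → ℂ} (hf : Differentiable ℂ f) (hne : ∃ s, f s ≠ 0) (s : ℂ) :
    analyticOrderAt f s ≠ ⊤ := by
  intro htop
  rw [analyticOrderAt_eq_top] at htop
  have han : AnalyticOnNhd ℂ f Set.univ := fun z _ => hf.analyticAt z
  have h0 : f = 0 := han.eq_of_eventuallyEq (g := 0) (fun z _ => analyticAt_const) htop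
  obtain ⟨t, ht⟩ := hne
  exact ht (by rw [h0]; rfl)

/-- factorisation with the natural number order -/
theorem factor {f : ℂ → ℂ} (hf : Differentiable ℂ f) (hne : ∃ s, f s ≠ 0) (s : ℂ) :
    ∃ u : ℂ → ℂ, AnalyticAt ℂ u s ∧ u s ≠ 0 ∧
      ∀ᶠ z in 𝓝 s, f z = (z - s) ^ analyticOrderNatAt f s * u z := by
  have h := (hf.analyticAt s).analyticOrderAt_ne_top.1 (order_ne_top hf hne s)
  obtain ⟨u, hu, hu0, heq⟩ := h
  refine ⟨u, hu, hu0, ?_⟩
  filter_upwards [heq] with z hz
  rw [hz, smul_eq_mul]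

theorem quo_ex (f g : ℂ → ℂ) (hf : Differentiable ℂ f) (hg : Differentiable ℂ g)
    (hf0 : ∃ s, f s ≠ 0) (hg0 : ∃ s, g s ≠ 0)
    (hle : ∀ s, analyticOrderNatAt g s ≤ analyticOrderNatAt f s) :
    ∃ h : ℂ → ℂ, Differentiable ℂ h ∧ ∀ s, h s * g s = f s := by
  classical
  -- local quotients
  have hloc : ∀ s, ∃ H : ℂ → ℂ, AnalyticAt ℂ H s ∧ (∀ᶠ z in 𝓝 s, H z * g z = f z) ∧
      ∀ᶠ z in 𝓝[≠] s, g z ≠ 0 := by
    intro s
    obtain ⟨u, hu, hu0, hfu⟩ := factor hf hf0 s
    obtain ⟨v, hv, hv0, hgv⟩ := factor hg hg0 s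
    have hvne : ∀ᶠ z in 𝓝 s, v z ≠ 0 := hv.continuousAt.eventually_ne hv0
    refine ⟨fun z => (z - s) ^ (analyticOrderNatAt f s - analyticOrderNatAt g s) * (u z / v z),
      ?_, ?_, ?_⟩
    · exact ((analyticAt_id.sub analyticAt_const).pow _).mul (hu.div hv hv0)
    · filter_upwards [hfu, hgv, hvne] with z h1 h2 h3
      rw [h1, h2]
      have h4 : (z - s) ^ analyticOrderNatAt f s =
          (z - s) ^ (analyticOrderNatAt f s - analyticOrderNatAt g s) *
            (z - s) ^ analyticOrderNatAt g s := by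
        rw [← pow_add, Nat.sub_add_cancel (hle s)]
      rw [h4]
      field_simp
    · have h5 : ∀ᶠ z in 𝓝[≠] s, z ≠ s := eventually_mem_nhdsWithin
      filter_upwards [hgv.filter_mono nhdsWithin_le_nhds, hvne.filter_mono nhdsWithin_le_nhds, h5]
        with z h2 h3 h6
      rw [h2]
      exact mul_ne_zero (pow_ne_zero _ (sub_ne_zero.2 h6)) h3
  let h : ℂ → ℂ := fun s => if g s ≠ 0 then f s / g s else
    limUnder (𝓝[≠] s) (fun z => f z / g z)
  have key : ∀ s, ∃ H : ℂ → ℂ, AnalyticAt ℂ H s ∧ (∀ᶠ z in 𝓝 s, H z * g z = f z) ∧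
      h =ᶠ[𝓝 s] H := by
    intro s
    obtain ⟨H, hH, hHg, hgne⟩ := hloc s
    refine ⟨H, hH, hHg, ?_⟩
    have hpt : ∀ᶠ z in 𝓝[≠] s, h z = H z := by
      filter_upwards [hHg.filter_mono nhdsWithin_le_nhds, hgne] with z h1 h2
      simp only [h]
      rw [if_pos h2, ← h1]
      field_simp
    have hs : h s = H s := by
      by_cases hgs : g s = 0
      · simp only [h]
        rw [if_neg (by simpa using hgs)]
        apply Tendsto.limUnder_eq
        have h2 : Tendsto H (𝓝[≠] s) (𝓝 (H s)) := hH.continuousAt.tendsto.mono_left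
          nhdsWithin_le_nhds
        refine h2.congr' ?_
        filter_upwards [hHg.filter_mono nhdsWithin_le_nhds, hgne] with z h1 h3
        rw [← h1]
        field_simp
      · simp only [h]
        rw [if_pos hgs, ← hHg.self_of_nhds]
        field_simp
    filter_upwards [eventually_nhdsWithin_iff.1 hpt] with z hz
    by_cases hzs : z = s
    · rw [hzs, hs]
    · exact hz hzs
  refine ⟨h, fun s => ?_, fun s => ?_⟩
  · obtain ⟨H, hH, _, heq⟩ := key s
    exact (hH.congr heq.symm).differentiableAt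
  · obtain ⟨H, _, hHg, heq⟩ := key s
    rw [heq.self_of_nhds]
    exact hHg.self_of_nhds

theorem quo_ord (f g h : ℂ → ℂ) (hf0 : ∃ s, f s ≠ 0) (hg : Differentiable ℂ g)
    (hg0 : ∃ s, g s ≠ 0) (hh : Differentiable ℂ h) (heq : ∀ s, h s * g s = f s) (s : ℂ) :
    analyticOrderNatAt g s ≤ analyticOrderNatAt f s ∧
      (h s = 0 ↔ analyticOrderNatAt g s < analyticOrderNatAt f s) := by
  have hh0 : ∃ s, h s ≠ 0 := by
    obtain ⟨t, ht⟩ := hf0
    exact ⟨t, fun h0 => ht (by rw [← heq, h0, zero_mul])⟩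
  have hfe : f = h * g := by
    funext t
    exact (heq t).symm
  have hmul : analyticOrderNatAt f s = analyticOrderNatAt h s + analyticOrderNatAt g s := by
    rw [hfe]
    exact analyticOrderNatAt_mul (hh.analyticAt s) (hg.analyticAt s) (order_ne_top hh hh0 s)
      (order_ne_top hg hg0 s)
  have hz : h s = 0 ↔ analyticOrderNatAt h s ≠ 0 := by
    rw [← (hh.analyticAt s).analyticOrderAt_ne_zero]
    have h1 := Nat.cast_analyticOrderNatAt (order_ne_top hh hh0 s)
    rw [← h1]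
    exact_mod_cast Iff.rfl
  refine ⟨by omega, ?_⟩
  rw [hz]
  omega

/-- QUO: exactly the statement `S_Quo` of `Pool/Agent/Q286/IX/Stm2.lean` -/
theorem quo_ : ∀ f g : ℂ → ℂ, Differentiable ℂ f → Differentiable ℂ g → (∃ s, f s ≠ 0) →
    (∃ s, g s ≠ 0) →
  ((∀ s, analyticOrderNatAt g s ≤ analyticOrderNatAt f s) →
    ∃ h : ℂ → ℂ, Differentiable ℂ h ∧ ∀ s, h s * g s = f s) ∧
  ∀ h : ℂ → ℂ, Differentiable ℂ h → (∀ s, h s * g s = f s) →
    ∀ s, analyticOrderNatAt g s ≤ analyticOrderNatAt f s ∧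
      (h s = 0 ↔ analyticOrderNatAt g s < analyticOrderNatAt f s) := by
  intro f g hf hg hf0 hg0
  exact ⟨fun hle => quo_ex f g hf hg hf0 hg0 hle,
    fun h hh heq s => quo_ord f g h hf0 hg hg0 hh heq s⟩

end Pool.Agent.Q164.IX
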